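import Mathlib
import Pool.Agent.Lib.MP_172ed5_co.Final

/-!
# Tournaments with `inv = tmr` whose dijoin has only about half the sum of the inversion numbers

For every `ε > 0` there are tournaments `D₁`, `D₂` with `inv D₁ = tmr D₁`, `inv D₂ = tmr D₂` and
`inv (D₁ → D₂) ≤ (1 / 2 + ε) (inv D₁ + inv D₂)`; the constant `1 / 2` is best possible.
-/

set_option autoImplicit false

namespace Pool.Agent.Results.MP_172ed5_co.HalfDijoins

section defs

variable {V W : Type}

/-- `D` is a tournament: there are no loops, and exactly one of the arcs `u v` and `v u` is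
present for all `u ≠ v`. -/
def IsTournament (D : V → V → Prop) : Prop :=
  (∀ u, ¬ D u u) ∧ ∀ u v, u ≠ v → Xor (D u v) (D v u)

/-- Inverting `X` reverses every arc with both ends in `X`. -/
def invert (X : Set V) (D : V → V → Prop) : V → V → Prop :=
  fun u v => (u ∈ X ∧ v ∈ X ∧ D v u) ∨ (¬ (u ∈ X ∧ v ∈ X) ∧ D u v)

/-- `Inversions k D D'`: inverting some sets `X₁, …, Xₖ` in turn changes `D` to `D'`. -/
inductive Inversions : ℕ → (V → V → Prop) → (V → V → Prop) → Prop
  | zero (D : V → V → Prop) : Inversions 0 D D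
  | succ {k : ℕ} {D D' : V → V → Prop} (X : Set V) :
      Inversions k D D' → Inversions (k + 1) D (invert X D')

/-- There is no directed cycle (closed directed walk). -/
def Acyclic (D : V → V → Prop) : Prop := ∀ v, ¬ Relation.TransGen D v v

/-- The inversion number. -/
noncomputable def inv (D : V → V → Prop) : ℕ :=
  sInf {k | ∃ D' : V → V → Prop, Inversions k D D' ∧ Acyclic D'}

/-- The dijoin `D₁ → D₂`. -/
def dijoin (D₁ : V → V → Prop) (D₂ : W → W → Prop) : V ⊕ W → V ⊕ W → Prop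
  | Sum.inl a, Sum.inl b => D₁ a b
  | Sum.inr a, Sum.inr b => D₂ a b
  | Sum.inl _, Sum.inr _ => True
  | Sum.inr _, Sum.inl _ => False

/-- The graph `G_{D,T}` of the pairs that `D` and `T` orient differently. -/
def diffGraph (D T : V → V → Prop) : SimpleGraph V where
  Adj i j := i ≠ j ∧ ((D i j ∧ T j i) ∨ (D j i ∧ T i j))
  symm := ⟨fun _ _ h => ⟨h.1.symm, h.2.symm⟩⟩
  loopless := ⟨fun _ h => h.1 rfl⟩

open Classical in
/-- `𝓜(G)`: the matrices over `F₂` that agree with the adjacency matrix of `G` outside the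
diagonal. -/
def matrices (G : SimpleGraph V) : Set (Matrix V V (ZMod 2)) :=
  {M | ∀ i j, i ≠ j → M i j = G.adjMatrix (ZMod 2) i j}

/-- The tournament minimum rank. -/
noncomputable def tmr [Fintype V] (D : V → V → Prop) : ℕ :=
  sInf {r | ∃ T : V → V → Prop, IsTournament T ∧ (∀ u v w, T u v → T v w → T u w) ∧
    ∃ M ∈ matrices (diffGraph D T), M.rank = r}

end defs

/-! ## Comparison with the sets used in the library -/

section lemmas

open Pool.Agent.Lib.MP_172ed5_co

variable {V : Type}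

theorem isTour_iff {D : V → V → Prop} : IsTournament D ↔ IsTour D := by
  unfold IsTournament IsTour
  constructor
  · rintro ⟨h1, h2⟩
    refine ⟨h1, fun u v h => ?_⟩
    have := h2 u v h
    unfold Xor at this
    tauto
  · rintro ⟨h1, h2⟩
    refine ⟨h1, fun u v h => ?_⟩
    have := h2 u v h
    have := h2 v u h.symm
    unfold Xor
    tauto

/-- The result of inverting the sets `X i`. -/
def flip [DecidableEq V] {k : ℕ} (X : Fin k → Finset V) (D : V → V → Prop) : V → V → Prop :=
  fun u v => (D u v ∧ Even (Finset.univ.filter (fun i => u ∈ X i ∧ v ∈ X i)).card) ∨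
    (D v u ∧ Odd (Finset.univ.filter (fun i => u ∈ X i ∧ v ∈ X i)).card)

theorem count_symm [DecidableEq V] {k : ℕ} (X : Fin k → Finset V) (u v : V) :
    (Finset.univ.filter (fun i => v ∈ X i ∧ u ∈ X i)).card =
      (Finset.univ.filter (fun i => u ∈ X i ∧ v ∈ X i)).card := by
  simp only [and_comm]

theorem count_cons [DecidableEq V] {k : ℕ} (Y : Finset V) (X : Fin k → Finset V) (u v : V) :
    (Finset.univ.filter (fun i => u ∈ (Fin.cons Y X : Fin (k + 1) → Finset V) i ∧
      v ∈ (Fin.cons Y X : Fin (k + 1) → Finset V) i)).card =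
      (Finset.univ.filter (fun i => u ∈ X i ∧ v ∈ X i)).card +
        if u ∈ Y ∧ v ∈ Y then 1 else 0 := by
  rw [Finset.card_filter, Finset.card_filter, Fin.sum_univ_succ]
  simp only [Fin.cons_zero, Fin.cons_succ]
  rw [add_comm]

theorem flip_cons [DecidableEq V] {k : ℕ} (Y : Finset V) (X : Fin k → Finset V)
    (D : V → V → Prop) :
    flip (Fin.cons Y X : Fin (k + 1) → Finset V) D = invert (Y : Set V) (flip X D) := by
  funext u v
  apply propext
  unfold flip invert
  simp only [count_cons, Finset.mem_coe]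
  rw [count_symm X u v]
  by_cases h : u ∈ Y ∧ v ∈ Y
  · simp only [h, and_self, if_true, not_true_eq_false, false_and, or_false, true_and,
      Nat.even_add_one, Nat.odd_add_one, Nat.not_even_iff_odd, Nat.not_odd_iff_even]
    exact or_comm
  · simp only [h, if_false, add_zero, not_false_eq_true, true_and]
    have h' : ¬ (u ∈ Y ∧ v ∈ Y ∧ ((D v u ∧
        Even (Finset.univ.filter (fun i => u ∈ X i ∧ v ∈ X i)).card) ∨ (D u v ∧
        Odd (Finset.univ.filter (fun i => u ∈ X i ∧ v ∈ X i)).card))) :=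
      fun h2 => h ⟨h2.1, h2.2.1⟩
    simp only [h', false_or]

theorem inversions_flip [DecidableEq V] {k : ℕ} (X : Fin k → Finset V) (D : V → V → Prop) :
    Inversions k D (flip X D) := by
  induction k with
  | zero =>
    have : flip X D = D := by
      funext u v
      simp [flip]
    rw [this]
    exact Inversions.zero D
  | succ k ih =>
    have h1 : X = (Fin.cons (X 0) (fun i : Fin k => X i.succ) : Fin (k + 1) → Finset V) := by
      funext i
      refine Fin.cases ?_ (fun i => ?_) i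
      · rfl
      · rfl
    rw [h1, flip_cons]
    exact Inversions.succ _ (ih _)

theorem exists_flip [Fintype V] [DecidableEq V] {k : ℕ} {D D' : V → V → Prop}
    (h : Inversions k D D') : ∃ X : Fin k → Finset V, D' = flip X D := by
  classical
  induction h with
  | zero D =>
    refine ⟨fun i => i.elim0, ?_⟩
    funext u v
    simp [flip]
  | @succ k D D' Y _ ih =>
    obtain ⟨X, rfl⟩ := ih
    refine ⟨Fin.cons (Finset.univ.filter (· ∈ Y)) X, ?_⟩
    rw [flip_cons]
    congr 1
    ext v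
    simp

theorem acyclic_iff [Fintype V] {D : V → V → Prop} :
    Acyclic D ↔ ∃ f : V → ℕ, ∀ u v, D u v → f u < f v := by
  classical
  constructor
  · intro h
    refine ⟨fun v => (Finset.univ.filter (fun u => Relation.TransGen D u v)).card, ?_⟩
    intro u v huv
    apply Finset.card_lt_card
    rw [Finset.ssubset_iff_of_subset]
    · refine ⟨u, ?_, ?_⟩
      · simp only [Finset.mem_filter, Finset.mem_univ, true_and]
        exact Relation.TransGen.single huv
      · simp only [Finset.mem_filter, Finset.mem_univ, true_and]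
        exact h u
    · intro w hw
      simp only [Finset.mem_filter, Finset.mem_univ, true_and] at hw ⊢
      exact hw.tail huv
  · rintro ⟨f, hf⟩ v hv
    have key : ∀ a b, Relation.TransGen D a b → f a < f b := by
      intro a b hab
      induction hab with
      | single h => exact hf _ _ h
      | tail _ h ih => exact ih.trans (hf _ _ h)
    exact lt_irrefl _ (key v v hv)

theorem invSet_eq [Fintype V] [DecidableEq V] (D : V → V → Prop) :
    {k | ∃ D' : V → V → Prop, Inversions k D D' ∧ Acyclic D'} = InvSet D := by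
  ext k
  constructor
  · rintro ⟨D', h1, h2⟩
    obtain ⟨X, rfl⟩ := exists_flip h1
    obtain ⟨f, hf⟩ := acyclic_iff.1 h2
    exact ⟨X, f, fun u v h => hf u v h⟩
  · rintro ⟨X, f, hf⟩
    exact ⟨flip X D, inversions_flip X D, acyclic_iff.2 ⟨f, fun u v h => hf u v h⟩⟩

theorem inv_eq [Fintype V] [DecidableEq V] (D : V → V → Prop) : inv D = sInf (InvSet D) := by
  unfold inv
  rw [invSet_eq]

theorem zmod_ite {a : ZMod 2} {p : Prop} [Decidable p] :
    (a = if p then 1 else 0) ↔ (a = 1 ↔ p) := by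
  by_cases hp : p
  · simp [hp]
  · simp only [hp, if_false, iff_false]
    revert a
    decide

theorem tmrSet_eq [Fintype V] [DecidableEq V] (D : V → V → Prop) :
    {r | ∃ T : V → V → Prop, IsTournament T ∧ (∀ u v w, T u v → T v w → T u w) ∧
      ∃ M ∈ matrices (diffGraph D T), M.rank = r} = TmrSet D := by
  classical
  ext r
  constructor
  · rintro ⟨T, hT, htr, M, hM, hr⟩
    -- order of the vertices
    let f : V → ℕ := fun v => (Finset.univ.filter (fun u => T u v)).card
    have hf : ∀ u v, T u v → f u < f v := by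
      intro u v huv
      apply Finset.card_lt_card
      rw [Finset.ssubset_iff_of_subset]
      · refine ⟨u, ?_, ?_⟩
        · simpa using huv
        · simpa using hT.1 u
      · intro w hw
        simp only [Finset.mem_filter, Finset.mem_univ, true_and] at hw ⊢
        exact htr _ _ _ hw huv
    have hiff : ∀ u v, T u v ↔ f u < f v := by
      intro u v
      refine ⟨hf u v, fun h => ?_⟩
      have hne : u ≠ v := by rintro rfl; exact lt_irrefl _ h
      have hx := hT.2 u v hne
      unfold Xor at hx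
      rcases hx with hx | hx
      · exact hx.1
      · exact absurd (hf v u hx.1) (not_lt.2 h.le)
    refine ⟨f, ?_, M, ?_, ?_, hr⟩
    · intro u v huv
      by_contra hne
      have hx := hT.2 u v hne
      unfold Xor at hx
      rcases hx with hx | hx
      · have := hf u v hx.1
        omega
      · have := hf v u hx.1
        omega
    · ext i j
      rw [Matrix.transpose_apply]
      by_cases hij : i = j
      · rw [hij]
      · rw [hM i j hij, hM j i (Ne.symm hij), SimpleGraph.adjMatrix_apply,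
          SimpleGraph.adjMatrix_apply]
        simp only [SimpleGraph.adj_comm]
    · intro u v hne
      have h1 := hM u v hne
      rw [SimpleGraph.adjMatrix_apply, zmod_ite] at h1
      rw [h1]
      unfold diffGraph
      simp only [hiff, ne_eq, hne, not_false_eq_true, true_and]
  · rintro ⟨f, hf, M, hs, hM, hr⟩
    refine ⟨fun u v => f u < f v, ⟨fun u => lt_irrefl _, fun u v hne => ?_⟩,
      fun u v w h1 h2 => h1.trans h2, M, ?_, hr⟩
    · have : f u ≠ f v := fun h => hne (hf h)
      unfold Xor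
      omega
    · intro i j hij
      rw [SimpleGraph.adjMatrix_apply, zmod_ite, hM i j hij]
      unfold diffGraph
      simp only [ne_eq, hij, not_false_eq_true, true_and]

theorem tmr_eq [Fintype V] [DecidableEq V] (D : V → V → Prop) : tmr D = sInf (TmrSet D) := by
  unfold tmr
  rw [tmrSet_eq]

theorem dijoin_eq {W : Type} (D₁ : V → V → Prop) (D₂ : W → W → Prop) :
    dijoin D₁ D₂ = Dij D₁ D₂ := by
  funext u v
  rcases u with a | a <;> rcases v with b | b <;> rfl

/-- Some number of inversions makes a tournament acyclic. -/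
theorem invSet_nonempty [Fintype V] [DecidableEq V] {D : V → V → Prop} (hD : IsTour D) :
    (InvSet D).Nonempty := by
  classical
  rcases isEmpty_or_nonempty V with hV | ⟨⟨v0⟩⟩
  · exact ⟨0, fun i => i.elim0, fun _ => 0, fun u => hV.elim u⟩
  · obtain ⟨f, hf⟩ : ∃ f : V → ℕ, Function.Injective f :=
      ⟨fun v => ((Fintype.equivFin V) v : ℕ), fun a b h =>
        (Fintype.equivFin V).injective (Fin.ext h)⟩
    let M : Matrix V V (ZMod 2) := Matrix.of fun u v =>
      if u = v then 1 else if (D u v ∧ f v < f u) ∨ (D v u ∧ f u < f v) then 1 else 0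
    have hs : M.IsSymm := by
      ext u v
      simp only [Matrix.transpose_apply, M, Matrix.of_apply]
      by_cases h : u = v
      · rw [h]
      · rw [if_neg h, if_neg (Ne.symm h)]
        congr 1
        rw [eq_iff_iff]
        tauto
    have hM : ∀ u v, u ≠ v → (M u v = 1 ↔ ((D u v ∧ f v < f u) ∨ (D v u ∧ f u < f v))) := by
      intro u v hne
      simp only [M, Matrix.of_apply, if_neg hne]
      split_ifs with h <;> simp [h]
    obtain ⟨A, hA⟩ := nonalt_factor M.rank M hs (Or.inr ⟨Pi.single v0 1, by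
      rw [quad_single]; simp [M]⟩) le_rfl
    exact ⟨_, factor_to_inv hD hf hM A hA⟩

theorem dij_tour {W : Type} {D₁ : V → V → Prop} {D₂ : W → W → Prop} (h1 : IsTour D₁)
    (h2 : IsTour D₂) : IsTour (Dij D₁ D₂) := by
  constructor
  · rintro (a | a)
    · exact h1.1 a
    · exact h2.1 a
  · rintro (a | a) (b | b) hne
    · exact h1.2 a b (fun h => hne (by rw [h]))
    · simp [Dij]
    · simp [Dij]
    · exact h2.2 a b (fun h => hne (by rw [h]))

/-- The two inversion numbers are bounded by that of the dijoin. -/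
theorem inv_le_dijoin {W : Type} [Fintype V] [Fintype W] [DecidableEq V] [DecidableEq W]
    {D₁ : V → V → Prop} {D₂ : W → W → Prop} (h1 : IsTour D₁) (h2 : IsTour D₂) :
    sInf (InvSet D₁) ≤ sInf (InvSet (Dij D₁ D₂)) ∧
      sInf (InvSet D₂) ≤ sInf (InvSet (Dij D₁ D₂)) := by
  have h := Nat.sInf_mem (invSet_nonempty (dij_tour h1 h2))
  have e1 : pb (Dij D₁ D₂) (Sum.inl : V → V ⊕ W) = D₁ := rfl
  have e2 : pb (Dij D₁ D₂) (Sum.inr : W → V ⊕ W) = D₂ := rfl
  constructor
  · have h3 := pb_inv (Sum.inl : V → V ⊕ W) h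
    rw [e1] at h3
    exact Nat.sInf_le h3
  · have h3 := pb_inv (Sum.inr : W → V ⊕ W) h
    rw [e2] at h3
    exact Nat.sInf_le h3

/-- The counting inequality for `m = 2 ^ (4 b)` and `k = m - (4 b + 4) 4 ^ b`. -/
theorem counting {b : ℕ} {m s k : ℕ} (hm : m = 2 ^ (4 * b)) (hs : s = (4 * b + 4) * 4 ^ b)
    (hk : k + s = m) : 2 * (m ^ m * ((2 ^ m * 2 ^ ((m + 1).choose 2 - (m - k + 1).choose 2)) *
      2 ^ m)) < 2 ^ (m * (m - 1) / 2) := by
  have hmk : m - k = s := by omega
  rw [hmk, Nat.choose_two_right, Nat.choose_two_right, Nat.add_sub_cancel, Nat.add_sub_cancel]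
  have hm1 : 1 ≤ m := by rw [hm]; exact Nat.one_le_two_pow
  have h4 : (4 : ℕ) ^ b * 4 ^ b = m := by
    rw [hm, ← pow_add, show (4 : ℕ) = 2 ^ 2 by norm_num, ← pow_mul]
    congr 1
    ring
  have hmm : m ^ m = 2 ^ (4 * b * m) := by
    conv_lhs => rw [hm]
    rw [← pow_mul, ← hm]
  rw [hmm]
  have e : 2 * (2 ^ (4 * b * m) * ((2 ^ m * 2 ^ ((m + 1) * m / 2 - (s + 1) * s / 2)) * 2 ^ m)) =
      2 ^ (1 + (4 * b * m + (m + ((m + 1) * m / 2 - (s + 1) * s / 2) + m))) := by
    rw [pow_add 2 1, pow_add 2 (4 * b * m), pow_add 2 (m + _), pow_add 2 m, pow_one]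
  rw [e]
  apply Nat.pow_lt_pow_right (by norm_num)
  -- exponents
  have hs2 : (4 * b + 4) * (4 * b + 4) * m = s * s := by
    rw [hs, ← h4]; ring
  have d1 : 2 * ((m + 1) * m / 2) = (m + 1) * m :=
    Nat.mul_div_cancel' (by rw [mul_comm]; exact (Nat.even_mul_succ_self m).two_dvd)
  have d2 : 2 * ((s + 1) * s / 2) = (s + 1) * s :=
    Nat.mul_div_cancel' (by rw [mul_comm]; exact (Nat.even_mul_succ_self s).two_dvd)
  have d3 : 2 * (m * (m - 1) / 2) = m * (m - 1) :=
    Nat.mul_div_cancel' (Nat.even_mul_pred_self m).two_dvd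
  obtain ⟨n, rfl⟩ : ∃ n, m = n + 1 := ⟨m - 1, by omega⟩
  rw [Nat.add_sub_cancel] at d3 ⊢
  have hle : (s + 1) * s ≤ (n + 1 + 1) * (n + 1) := Nat.mul_le_mul (by omega) (by omega)
  have key : 2 * (1 + (4 * b * (n + 1) + (n + 1) + (n + 1))) + (n + 1 + 1) * (n + 1) <
      (n + 1) * n + (s + 1) * s := by
    nlinarith [hs2, Nat.zero_le (b * n), Nat.zero_le (b * b * n), Nat.zero_le (b * b)]
  omega

/-- For every large `b` there is a pair of tournaments. -/
theorem exists_pair {b m s k : ℕ} (hm : m = 2 ^ (4 * b)) (hs : s = (4 * b + 4) * 4 ^ b)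
    (hk : k + s = m) :
    ∃ (n n' : ℕ) (D₁ : Fin n → Fin n → Prop) (D₂ : Fin n' → Fin n' → Prop),
      IsTour D₁ ∧ IsTour D₂ ∧ sInf (InvSet D₁) = sInf (TmrSet D₁) ∧
      sInf (InvSet D₂) = sInf (TmrSet D₂) ∧ k ≤ sInf (InvSet D₁) ∧ k ≤ sInf (InvSet D₂) ∧
      sInf (InvSet (Dij D₁ D₂)) ≤ m := by
  obtain ⟨c, hc1, hc2⟩ := exists_par (m := m) (k := k) (by omega) (counting hm hs hk)
  have ht1 : IsTour (DG (Cm c * (Cm c).transpose)) := DG_tour (mul_transpose_symm _)
  have ht2 : IsTour (DG (Ym c * (Ym c).transpose)) := DG_tour (mul_transpose_symm _)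
  obtain ⟨n, e, he, h1, h1'⟩ := exists_good_sub _ _ ht1
  obtain ⟨n', g, hg, h2, h2'⟩ := exists_good_sub _ _ ht2
  refine ⟨n, n', pb (DG (Cm c * (Cm c).transpose)) e, pb (DG (Ym c * (Ym c).transpose)) g,
    pb_tour ht1 he, pb_tour ht2 hg, h1, h2, by omega, by omega, ?_⟩
  have h3 : m ∈ InvSet (Dij (pb (DG (Cm c * (Cm c).transpose)) e)
      (pb (DG (Ym c * (Ym c).transpose)) g)) := by
    rw [Dij_pb]
    exact pb_inv _ (dijoin_inv c)
  exact Nat.sInf_le h3

end lemmas

/-- There are tournaments `D₁`, `D₂` with `inv D₁ = tmr D₁`, `inv D₂ = tmr D₂` such that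
`inv (D₁ → D₂) < inv D₁ + inv D₂`. Both inversion numbers can be arbitrarily large, and the
inversion number of the dijoin can be at most `(1 / 2 + ε) (inv D₁ + inv D₂)`. It is at least
`(inv D₁ + inv D₂) / 2` for all tournaments. -/
theorem result :
    (∀ (ε : ℝ) (N : ℕ), 0 < ε →
      ∃ (n m : ℕ) (D₁ : Fin n → Fin n → Prop) (D₂ : Fin m → Fin m → Prop),
        IsTournament D₁ ∧ IsTournament D₂ ∧ inv D₁ = tmr D₁ ∧ inv D₂ = tmr D₂ ∧
        N ≤ inv D₁ ∧ N ≤ inv D₂ ∧ inv (dijoin D₁ D₂) < inv D₁ + inv D₂ ∧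
        (inv (dijoin D₁ D₂) : ℝ) ≤ (1 / 2 + ε) * (inv D₁ + inv D₂)) ∧
    ∀ (V W : Type) [Fintype V] [Fintype W] (D₁ : V → V → Prop) (D₂ : W → W → Prop),
      IsTournament D₁ → IsTournament D₂ →
        (1 / 2 : ℝ) * (inv D₁ + inv D₂) ≤ inv (dijoin D₁ D₂) := by
  classical
  constructor
  · intro ε N hε
    -- choose `b`
    obtain ⟨b, hb⟩ := exists_nat_gt (max (4 / min ε (1 / 4)) (N + 1))
    have hb1 : 4 / min ε (1 / 4) < b := lt_of_le_of_lt (le_max_left _ _) hb
    have hb2 : (N : ℝ) + 1 < b := lt_of_le_of_lt (le_max_right _ _) hb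
    have hb2' : N + 1 < b := by exact_mod_cast hb2
    have hε' : 0 < min ε (1 / 4) := lt_min hε (by norm_num)
    have hpow : b + 1 ≤ 2 ^ b := Nat.lt_two_pow_self
    have hpow' : (b : ℝ) + 1 ≤ 2 ^ b := by exact_mod_cast hpow
    have h4b' : (4 : ℝ) ^ b = 2 ^ b * 2 ^ b := by
      rw [← mul_pow]; norm_num
    have hmval : (2 : ℝ) ^ (4 * b) = 4 ^ b * 4 ^ b := by
      rw [← mul_pow, pow_mul]; norm_num
    have hP : (0 : ℝ) < 4 ^ b := by positivity
    -- `s ≤ min ε (1/4) * m`
    have hsm : ((4 * b + 4) * 4 ^ b : ℝ) ≤ min ε (1 / 4) * 2 ^ (4 * b) := by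
      rw [hmval]
      have h1 : (4 * b + 4 : ℝ) ≤ min ε (1 / 4) * 4 ^ b := by
        have h2 : 4 ≤ min ε (1 / 4) * (2 : ℝ) ^ b := by
          have h3 : 4 < min ε (1 / 4) * (b : ℝ) := by
            rw [div_lt_iff₀ hε'] at hb1
            linarith
          nlinarith
        calc (4 * b + 4 : ℝ) = 4 * (b + 1) := by ring
          _ ≤ (min ε (1 / 4) * 2 ^ b) * 2 ^ b := by
              apply mul_le_mul h2 hpow' (by positivity) (by positivity)
          _ = min ε (1 / 4) * 4 ^ b := by rw [h4b']; ring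
      nlinarith
    have hsmN : (4 * b + 4) * 4 ^ b ≤ 2 ^ (4 * b) := by
      have : ((4 * b + 4) * 4 ^ b : ℝ) ≤ 2 ^ (4 * b) := by
        refine hsm.trans ?_
        have h1 : min ε (1 / 4) ≤ 1 := (min_le_right _ _).trans (by norm_num)
        have h2 : (0 : ℝ) < 2 ^ (4 * b) := by positivity
        nlinarith
      exact_mod_cast this
    obtain ⟨k, hk⟩ := Nat.exists_eq_add_of_le' hsmN
    obtain ⟨n, m, D₁, D₂, t1, t2, e1, e2, k1, k2, hd⟩ :=
      exists_pair (b := b) (k := k) rfl rfl hk.symm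
    -- real inequalities
    have hkR : (k : ℝ) + (4 * b + 4) * 4 ^ b = 2 ^ (4 * b) := by exact_mod_cast hk.symm
    have hM0 : (0 : ℝ) < 2 ^ (4 * b) := by positivity
    have hmin4 : min ε (1 / 4) ≤ 1 / 4 := min_le_right _ _
    have hminε : min ε (1 / 4) ≤ ε := min_le_left _ _
    have hk34 : (3 / 4 : ℝ) * 2 ^ (4 * b) ≤ k := by nlinarith
    have hNk : N ≤ k := by
      have h1 : (b : ℝ) ≤ 2 ^ (4 * b) / 16 := by
        have h2 : (2 : ℝ) ^ (4 * b) = 2 ^ b * 2 ^ b * (2 ^ b * 2 ^ b) := by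
          rw [hmval, h4b']
        have h3 : (16 : ℝ) ≤ 2 ^ b := by
          have h4 : 16 ≤ (b : ℝ) := by
            have h5 : (16 : ℝ) ≤ 4 / min ε (1 / 4) := by
              rw [le_div_iff₀ hε']; linarith
            linarith
          linarith
        rw [h2]
        have h6 : (1 : ℝ) ≤ 2 ^ b := by linarith
        have h7 : (1 : ℝ) ≤ 2 ^ b * 2 ^ b := by nlinarith
        have h8 : (16 : ℝ) * 2 ^ b ≤ 2 ^ b * 2 ^ b := by nlinarith
        have h9 : (2 : ℝ) ^ b * 2 ^ b ≤ 2 ^ b * 2 ^ b * (2 ^ b * 2 ^ b) := by nlinarith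
        linarith
      have h2 : (N : ℝ) ≤ k := by linarith
      exact_mod_cast h2
    refine ⟨n, m, D₁, D₂, isTour_iff.2 t1, isTour_iff.2 t2, ?_, ?_, ?_, ?_, ?_, ?_⟩
    · rw [inv_eq, tmr_eq, e1]
    · rw [inv_eq, tmr_eq, e2]
    · rw [inv_eq]; exact hNk.trans k1
    · rw [inv_eq]; exact hNk.trans k2
    · rw [inv_eq, inv_eq, inv_eq, dijoin_eq]
      have h1 : (2 : ℝ) ^ (4 * b) < k + k := by linarith
      have h2 : 2 ^ (4 * b) < k + k := by exact_mod_cast h1
      omega
    · rw [inv_eq, inv_eq, inv_eq, dijoin_eq]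
      have hdR : ((sInf (Pool.Agent.Lib.MP_172ed5_co.InvSet
          (Pool.Agent.Lib.MP_172ed5_co.Dij D₁ D₂)) : ℕ) : ℝ) ≤ 2 ^ (4 * b) := by exact_mod_cast hd
      have k1R : (k : ℝ) ≤ ((sInf (Pool.Agent.Lib.MP_172ed5_co.InvSet D₁) : ℕ) : ℝ) := by
        exact_mod_cast k1
      have k2R : (k : ℝ) ≤ ((sInf (Pool.Agent.Lib.MP_172ed5_co.InvSet D₂) : ℕ) : ℝ) := by
        exact_mod_cast k2
      have h1 : (2 : ℝ) ^ (4 * b) ≤ (1 / 2 + min ε (1 / 4)) * (k + k) := by nlinarith
      refine hdR.trans (h1.trans ?_)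
      apply mul_le_mul (by linarith) (by linarith) (by positivity) (by linarith)
  · intro V W _ _ D₁ D₂ h1 h2
    rw [inv_eq, inv_eq, inv_eq, dijoin_eq]
    obtain ⟨h3, h4⟩ := inv_le_dijoin (isTour_iff.1 h1) (isTour_iff.1 h2)
    have h3' : ((sInf (Pool.Agent.Lib.MP_172ed5_co.InvSet D₁) : ℕ) : ℝ) ≤
        ((sInf (Pool.Agent.Lib.MP_172ed5_co.InvSet
          (Pool.Agent.Lib.MP_172ed5_co.Dij D₁ D₂)) : ℕ) : ℝ) := by
      exact_mod_cast h3
    have h4' : ((sInf (Pool.Agent.Lib.MP_172ed5_co.InvSet D₂) : ℕ) : ℝ) ≤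
        ((sInf (Pool.Agent.Lib.MP_172ed5_co.InvSet
          (Pool.Agent.Lib.MP_172ed5_co.Dij D₁ D₂)) : ℕ) : ℝ) := by
      exact_mod_cast h4
    linarith

end Pool.Agent.Results.MP_172ed5_co.HalfDijoins
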